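import Pool.Agent.P8H33.QC.Stm2

/-!
# Project QC, package TAU: the Frobenius automorphism
-/

set_option autoImplicit false

open Polynomial IntermediateField

namespace Pool.Agent.P8H23.QC

open Pool.Agent.P8H33.QC

/-- two different roots of unity of odd order are not close -/
theorem root_dist {n : ℕ} (hn : Odd n) {a b : PadicAlgCl 2} (ha : a ^ n = 1) (hb : b ^ n = 1)
    (hab : ‖a - b‖ < 1) : a = b := by
  by_contra hne
  have hn0 : n ≠ 0 := by
    rintro rfl
    exact absurd hn (by decide)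
  have nb : ‖b‖ = 1 := by
    have h := congrArg norm hb
    rw [norm_pow, norm_one] at h
    exact (pow_eq_one_iff_of_nonneg (norm_nonneg _) hn0).1 h
  have hb0 : b ≠ 0 := by
    intro h
    rw [h, norm_zero] at nb
    exact zero_ne_one nb
  set u : PadicAlgCl 2 := a / b with hu
  have hu1 : ‖u - 1‖ < 1 := by
    have : u - 1 = (a - b) / b := by
      rw [hu]
      field_simp
    rw [this, norm_div, nb, div_one]
    exact hab
  have hune : u - 1 ≠ 0 := by
    intro h
    apply hne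
    have : u = 1 := by linear_combination h
    rw [hu, div_eq_one_iff_eq hb0] at this
    exact this
  have hun : u ^ n = 1 := by rw [hu, div_pow, ha, hb, div_one]
  have nu : ‖u‖ = 1 := by
    have h := congrArg norm hun
    rw [norm_pow, norm_one] at h
    exact (pow_eq_one_iff_of_nonneg (norm_nonneg _) hn0).1 h
  have hgeom : ∑ i ∈ Finset.range n, u ^ i = 0 := by
    have h := mul_geom_sum u n
    rw [hun, sub_self] at h
    exact (mul_eq_zero.1 h).resolve_left hune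
  have hpow : ∀ i : ℕ, ‖u ^ i - 1‖ ≤ ‖u - 1‖ := by
    intro i
    rw [← mul_geom_sum u i, norm_mul]
    refine mul_le_of_le_one_right (norm_nonneg _) ?_
    refine IsUltrametricDist.norm_sum_le_of_forall_le_of_nonneg zero_le_one fun j _ => ?_
    rw [norm_pow, nu, one_pow]
  have h1 : ((n : ℕ) : PadicAlgCl 2) = -∑ i ∈ Finset.range n, (u ^ i - 1) := by
    rw [Finset.sum_sub_distrib, hgeom]
    simp
  have h2 : ‖((n : ℕ) : PadicAlgCl 2)‖ < 1 := by
    rw [h1, norm_neg]
    refine lt_of_le_of_lt ?_ hu1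
    exact IsUltrametricDist.norm_sum_le_of_forall_le_of_nonneg (norm_nonneg _) fun j _ => hpow j
  have h3 : ‖((n : ℕ) : PadicAlgCl 2)‖ = 1 := by
    rw [← map_natCast (algebraMap ℚ_[2] (PadicAlgCl 2)), PadicAlgCl.norm_extends]
    rw [Padic.norm_natCast_eq_one_iff]
    exact Nat.coprime_two_left.2 hn
  linarith

/-- reduction of an integral polynomial modulo two -/
theorem expand_near (M : ℤ_[2][X]) (i : ℕ) : ‖(expand ℤ_[2] 2 M - M ^ 2).coeff i‖ < 1 := by
  have h0 : (expand ℤ_[2] 2 M - M ^ 2).map (PadicInt.toZMod (p := 2)) = 0 := by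
    rw [Polynomial.map_sub, Polynomial.map_pow, map_expand, ZMod.expand_card, sub_self]
  have h1 : PadicInt.toZMod (p := 2) ((expand ℤ_[2] 2 M - M ^ 2).coeff i) = 0 := by
    rw [← coeff_map, h0, coeff_zero]
  have h2 : (expand ℤ_[2] 2 M - M ^ 2).coeff i ∈ RingHom.ker (PadicInt.toZMod (p := 2)) := h1
  rw [PadicInt.ker_toZMod, IsLocalRing.mem_maximalIdeal, PadicInt.mem_nonunits] at h2
  exact h2

theorem norm_map (x : ℤ_[2]) : ‖algebraMap ℤ_[2] (PadicAlgCl 2) x‖ = ‖x‖ := by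
  rw [IsScalarTower.algebraMap_apply ℤ_[2] ℚ_[2] (PadicAlgCl 2), PadicAlgCl.norm_extends]
  rfl

/-- package TAU -/
theorem t_TAU : S_TAU := by
  intro ℓ hℓ ζ hζ
  set n : ℕ := 2 ^ ℓ - 1 with hn
  have hpos : 2 ≤ 2 ^ ℓ := by
    calc 2 = 2 ^ 1 := by norm_num
      _ ≤ 2 ^ ℓ := Nat.pow_le_pow_right (by norm_num) hℓ
  have hodd : Odd n := by
    rw [hn]
    refine Nat.Even.sub_odd (by omega) ?_ odd_one
    exact (Nat.even_pow.2 ⟨even_two, by omega⟩)
  have hn0 : n ≠ 0 := by omega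
  have hζn : ζ ^ n = 1 := hζ.pow_eq_one
  have nz : ‖ζ‖ = 1 := by
    have h := congrArg norm hζn
    rw [norm_pow, norm_one] at h
    exact (pow_eq_one_iff_of_nonneg (norm_nonneg _) hn0).1 h
  have hint : IsIntegral ℤ_[2] ζ := by
    refine ⟨X ^ n - 1, monic_X_pow_sub_C 1 hn0, ?_⟩
    simp [hζn]
  set M : ℤ_[2][X] := minpoly ℤ_[2] ζ with hM
  have hm : minpoly ℚ_[2] ζ = M.map (algebraMap ℤ_[2] ℚ_[2]) :=
    minpoly.isIntegrallyClosed_eq_field_fractions' ℚ_[2] hint
  -- `m (ζ ^ 2)` is small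
  have hsmall : ‖aeval (ζ ^ 2) M‖ < 1 := by
    have h0 : aeval ζ M = 0 := minpoly.aeval _ _
    have h1 : aeval (ζ ^ 2) M = aeval ζ (expand ℤ_[2] 2 M - M ^ 2) := by
      rw [map_sub, map_pow, h0, expand_aeval]
      simp
    have hle : ∀ i, ‖(expand ℤ_[2] 2 M - M ^ 2).coeff i‖ ≤ (2 : ℝ)⁻¹ := by
      intro i
      have h2 := (PadicInt.norm_le_pow_iff_norm_lt_pow_add_one
        ((expand ℤ_[2] 2 M - M ^ 2).coeff i) (-1)).2 (by
          simpa using expand_near M i)
      simpa using h2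
    rw [h1, aeval_eq_sum_range]
    refine lt_of_le_of_lt (IsUltrametricDist.norm_sum_le_of_forall_le_of_nonneg
      (by norm_num : (0 : ℝ) ≤ 2⁻¹) fun i _ => ?_) (by norm_num : (2 : ℝ)⁻¹ < 1)
    rw [Algebra.smul_def, norm_mul, norm_map, norm_pow, nz, one_pow, mul_one]
    exact hle i
  have haev : aeval (ζ ^ 2) (minpoly ℚ_[2] ζ) = aeval (ζ ^ 2) M := by
    rw [hm, aeval_map_algebraMap]
  have hintQ : IsIntegral ℚ_[2] ζ := Algebra.IsIntegral.isIntegral ζ
  have hprod : aeval (ζ ^ 2) (minpoly ℚ_[2] ζ) =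
      (((minpoly ℚ_[2] ζ).aroots (PadicAlgCl 2)).map fun ρ => ζ ^ 2 - ρ).prod := by
    rw [(IsAlgClosed.splits _).aeval_eq_prod_aroots, (minpoly.monic hintQ).leadingCoeff, map_one,
      one_mul]
  -- some root is close to `ζ ^ 2`
  have hex : ∃ ρ ∈ (minpoly ℚ_[2] ζ).aroots (PadicAlgCl 2), ‖ζ ^ 2 - ρ‖ < 1 := by
    by_contra hcon
    push Not at hcon
    have key : ∀ s : Multiset (PadicAlgCl 2), (∀ ρ ∈ s, 1 ≤ ‖ζ ^ 2 - ρ‖) →
        1 ≤ ‖(s.map fun ρ => ζ ^ 2 - ρ).prod‖ := by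
      intro s
      induction s using Multiset.induction_on with
      | empty => intro _; simp
      | cons a s ih =>
        intro h
        rw [Multiset.map_cons, Multiset.prod_cons, norm_mul]
        have h1 := h a (Multiset.mem_cons_self a s)
        have h2 := ih fun ρ hρ => h ρ (Multiset.mem_cons_of_mem hρ)
        nlinarith
    have := key _ hcon
    rw [← hprod, haev] at this
    linarith
  obtain ⟨ρ, hρ, hclose⟩ := hex
  have hρroot : aeval ρ (minpoly ℚ_[2] ζ) = 0 := (mem_aroots.1 hρ).2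
  have hρn : ρ ^ n = 1 := by
    have hdvd : minpoly ℚ_[2] ζ ∣ X ^ n - 1 := minpoly.dvd _ _ (by simp [hζn])
    obtain ⟨g, hg⟩ := hdvd
    have h1 : aeval ρ (X ^ n - 1 : ℚ_[2][X]) = 0 := by rw [hg, map_mul, hρroot, zero_mul]
    simp only [map_sub, map_pow, aeval_X, map_one] at h1
    exact sub_eq_zero.1 h1
  have heq : ζ ^ 2 = ρ := by
    refine root_dist hodd ?_ hρn hclose
    rw [← pow_mul, mul_comm, pow_mul, hζn, one_pow]
  rw [← heq] at hρroot
  have hconj : IsConjRoot ℚ_[2] (ζ ^ 2) ζ := by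
    unfold IsConjRoot
    exact (minpoly.eq_of_irreducible_of_monic (minpoly.irreducible hintQ) hρroot
      (minpoly.monic hintQ)).symm
  obtain ⟨τ, hτ⟩ := isConjRoot_iff_exists_algEquiv.1 hconj
  exact ⟨τ, hτ⟩

end Pool.Agent.P8H23.QC
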